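import Pool.Agent.H620R2.Gauge2.Base
import Pool.Agent.H620R2.Gauge2.Null
import Pool.Agent.H620R2.Gauge.Dt
import Pool.Agent.H620R2.Gauge.A2

/-!
# The strong exponential time hypothesis relative to random oracles with changed strings:
definitions and parts
-/

set_option autoImplicit false

namespace Pool.Agent.W912.SE

open Pool.Agent.NPC Pool.Agent.H620R2.Gauge H568R2 Pool.Agent.H676
open Filter

/-! ## Oracle formulas -/

/-- An argument of an oracle literal: a variable or a constant. -/
inductive Arg : Type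
  | var (i : ℕ)
  | cst (b : Bool)

/-- A literal: `var i b` says that the variable number `i` has the value `b`; `ora l b` says that
the oracle has the value `b` on the string given by the list `l` of arguments. -/
inductive Lit : Type
  | var (i : ℕ) (b : Bool)
  | ora (l : List Arg) (b : Bool)

/-- A formula is a list of clauses, a clause is a list of literals. -/
abbrev Formula : Type := List (List Lit)

/-- The value of an argument under the assignment `y`. -/
def Arg.val (y : ℕ → Bool) : Arg → Bool
  | .var i => y i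
  | .cst b => b

/-- The value of a literal under the assignment `y`, with the oracle `A`. -/
def Lit.val (A : Oracle) (y : ℕ → Bool) : Lit → Bool
  | .var i b => y i == b
  | .ora l b => A (l.map (Arg.val y)) == b

/-- The number of clauses of `F` that are satisfied by `y`, with the oracle `A`. -/
def sat (A : Oracle) (F : Formula) (y : ℕ → Bool) : ℕ :=
  (F.filter (fun c => c.any (Lit.val A y))).length

/-- The variables of an argument. -/
def Arg.vars : Arg → List ℕ
  | .var i => [i]
  | .cst _ => []

/-- The variables of a literal. -/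
def Lit.vars : Lit → List ℕ
  | .var i _ => [i]
  | .ora l _ => l.flatMap Arg.vars

/-- The number of the distinct variables that occur in `F`. -/
def nv (F : Formula) : ℕ := (F.flatMap (fun c => c.flatMap Lit.vars)).toFinset.card

/-- The code of a number: its binary digits, each one after a mark, and an end mark. -/
def encN (i : ℕ) : List Bool := (Nat.bits i).flatMap (fun b => [true, b]) ++ [false]

/-- The code of a list: the codes of the entries, each one after a mark, and an end mark. -/
def encL {α : Type} (e : α → List Bool) (l : List α) : List Bool :=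
  l.flatMap (fun a => true :: e a) ++ [false]

/-- The code of an argument. -/
def Arg.enc : Arg → List Bool
  | .var i => true :: encN i
  | .cst b => [false, b]

/-- The code of a literal. -/
def Lit.enc : Lit → List Bool
  | .var i b => true :: b :: encN i
  | .ora l b => false :: b :: encL Arg.enc l

/-- The code of a formula. -/
def enc (F : Formula) : List Bool := encL (encL Lit.enc) F

/-! ## The test formulas -/

/-- the string asked by clause `i` of the test formula with the name `z`, under the assignment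
`y` -/
def cw (i : ℕ) (z y : List Bool) : List Bool := List.replicate i true ++ false :: (z ++ y)

/-- the test formula with `n` variables, `m` clauses and the name `z`: `A (cw i z y)` for all
`i < m` -/
def phi (n m : ℕ) (z : List Bool) : Formula :=
  (List.range m).map (fun i => [Lit.ora (List.replicate i (Arg.cst true) ++ Arg.cst false ::
    (z.map Arg.cst ++ (List.range n).map Arg.var)) true])

/-- the bound for the length of the code of a test formula -/
def Lb (n m D : ℕ) : ℕ := (m + 1) * (3 * (m + D + 2) + n * (2 * n + 3) + 8)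

/-- facts on the test formulas -/
def S_ENC : Prop := ∀ (n m : ℕ) (z : List Bool),
  (phi n m z).length = m ∧ (∀ c ∈ phi n m z, c.length ≤ 1) ∧ (1 ≤ m → nv (phi n m z) = n) ∧
  (enc (phi n m z)).length ≤ Lb n m z.length ∧
  ∀ (A : Oracle) (y : ℕ → Bool), sat A (phi n m z) y =
    ((Finset.range m).filter (fun i => A (cw i z ((List.range n).map y)) = true)).card

/-! ## Blocks -/

/-- In every window at most `t` bits are true. -/
def FarF {I J : Type*} (W : J → Finset I) (t : ℝ) (a : I → Bool) : Prop :=
  ∀ j, (((W j).filter (fun i => a i = true)).card : ℝ) ≤ t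

/-- the answer `c` is right: it is true if some window is all true, and false if in every window
at most `t` bits are true -/
def Ok {I J : Type*} (W : J → Finset I) (t : ℝ) (a : I → Bool) (c : Bool) : Prop :=
  (HitF W a → c = true) ∧ (FarF W t a → c = false)

open Classical in
/-- a shallow decision tree is wrong on a block with a certain probability -/
def S_BLOCK : Prop := ∀ (I J : Type) [Fintype I] [DecidableEq I] [Fintype J] (m T : ℕ) (t : ℝ)
  (W : J → Finset I) (g : (I → Bool) → Bool),
  (∀ j, (W j).card = m) → (∀ j j', j ≠ j' → Disjoint (W j) (W j')) →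
  0 < Fintype.card J → 4 * T ≤ Fintype.card J →
  3 / 4 ≤ Ex unif (fun a : I → Bool => if FarF W t a then (1 : ℝ) else 0) → DTr T g →
  Ex unif (fun a : I → Bool => if Ok W t a (g a) then (1 : ℝ) else 0) ≤ 1 - (1 / 2) ^ (m + 2)

open Classical in
/-- shallow decision trees for random sequences of disjoint blocks -/
def S_SEQ : Prop := ∀ (I κ : Type) [Fintype I] [DecidableEq I] [Fintype κ] [DecidableEq κ]
  (T β K : ℕ) (p δ : ℝ) (B : κ → Finset I) (ok : κ → (I → Bool) → Bool → Bool)
  (f : κ → (I → Bool) → Bool), 0 ≤ p → 0 ≤ δ →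
  (∀ k, (B k).card ≤ β) → (∀ k k', k ≠ k' → Disjoint (B k) (B k')) →
  (∀ k a a' c, (∀ i ∈ B k, a i = a' i) → ok k a c = ok k a' c) →
  (∀ k (g : (I → Bool) → Bool), DTr T g →
    Ex unif (fun a : I → Bool => if ok k a (g a) = true then (1 : ℝ) else 0) ≤ p) →
  (∀ k, DTr T (f k)) → (K : ℝ) * (T + β) ≤ δ * Fintype.card κ →
  ∑ s : Fin K → κ, Ex unif (fun a : I → Bool =>
    if ∀ j, ok (s j) a (f (s j) a) = true then (1 : ℝ) else 0) ≤ ((p + δ) * Fintype.card κ) ^ K

/-- majority vote: few sequences have at least half of their members in a set that contains at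
most a third of all elements -/
def S_AMP : Prop := ∀ (R : Type) [Fintype R] [DecidableEq R] (h : ℕ) (B : Finset R),
  3 * B.card ≤ Fintype.card R →
  (((Finset.univ : Finset (Fin (2 * h) → R)).filter (fun ρ =>
    h ≤ ((Finset.univ : Finset (Fin (2 * h))).filter (fun j => ρ j ∈ B)).card)).card : ℝ) ≤
    (8 / 9) ^ h * (Fintype.card R : ℝ) ^ (2 * h)

/-- combinations of decision trees -/
def S_MAJ : Prop := ∀ (I : Type) [Fintype I] [DecidableEq I] (q T : ℕ)
  (f : Fin q → (I → Bool) → Bool) (H : (Fin q → Bool) → Bool),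
  (∀ j, DTr T (f j)) → DTr (q * T) (fun a => H (fun j => f j a))

open Classical in
/-- the randomised answers `φ r` are right with probability at least `2 / 3` -/
def Good {I J R : Type} [Fintype R] (W : J → Finset I) (t : ℝ) (φ : R → Bool) (a : I → Bool) :
    Prop :=
  (HitF W a → 2 * Fintype.card R ≤ 3 * ((Finset.univ : Finset R).filter (fun r => φ r = true)).card) ∧
  (FarF W t a → 3 * ((Finset.univ : Finset R).filter (fun r => φ r = true)).card ≤ Fintype.card R)

open Classical in
/-- shallow randomised decision trees are not right on many blocks -/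
def S_CORE : Prop := ∀ (I κ J R : Type) [Fintype I] [DecidableEq I] [Fintype κ] [DecidableEq κ]
  [Nonempty κ] [Fintype J] [Fintype R] [Nonempty R] (m T K : ℕ) (t : ℝ) (W : κ → J → Finset I)
  (f : R → κ → (I → Bool) → Bool),
  (∀ k j, (W k j).card = m) → (∀ k j k' j', (k, j) ≠ (k', j') → Disjoint (W k j) (W k' j')) →
  (∀ k, 3 / 4 ≤ Ex unif (fun a : I → Bool => if FarF (W k) t a then (1 : ℝ) else 0)) →
  (∀ r k, DTr T (f r k)) → 0 < Fintype.card J → 48 * (m + 4) * T ≤ Fintype.card J →
  K * (12 * (m + 4) * T + m * Fintype.card J) * 2 ^ (m + 3) ≤ Fintype.card κ →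
  Ex unif (fun a : I → Bool => if ∀ k, Good (W k) t (fun r => f r k a) a then (1 : ℝ) else 0) ≤
    (1 - (1 / 2) ^ (m + 4)) ^ K

open Classical in
/-- a random block is far from being hit -/
def S_FAR : Prop := ∀ ε : ℝ, ε < 1 / 2 → ∃ m₀ : ℕ, 1 ≤ m₀ ∧ ∀ n m : ℕ, m = m₀ * (n + 1) →
  ∀ (I J : Type) [Fintype I] [DecidableEq I] [Fintype J] (W : J → Finset I),
    Fintype.card J = 2 ^ n → (∀ j, (W j).card = m) →
    3 / 4 ≤ Ex unif (fun a : I → Bool => if FarF W ((1 - ε) * m) a then (1 : ℝ) else 0)

/-! ## Numbers -/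

/-- numbers -/
def S_NUM : Prop := ∀ (P : Polynomial ℕ) (C k a b m₀ : ℕ), 0 < b → a < b →
  ∃ h B n₀ : ℕ, 1 ≤ h ∧ ∀ n ≥ n₀, ∀ D m : ℕ, D = 2 ^ (n / h) → m = m₀ * (n + 1) →
    (m + D + n + 1 ≤ 2 ^ (B * n)) ∧
    (∀ L T : ℕ, L ≤ Lb n m D → T = C * (L + 1) ^ k * 2 ^ (a * n / b) →
      48 * (m + 4) * T ≤ 2 ^ n ∧ P.eval (3 * T + L + 1) ≤ 2 ^ (B * n)) ∧
    ∃ K : ℕ, K * (2 ^ n + m * 2 ^ n) * 2 ^ (m + 3) ≤ 2 ^ D ∧
      ((1 : ℝ) - (1 / 2) ^ (m + 4)) ^ K ≤ (1 / 2) ^ (2 ^ (D / 2) : ℕ)

/-- lengths at which the gauge is small -/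
def S_NUMF : Prop := ∀ f : ℕ → ℝ, (∀ ε : ℝ, 0 < ε → ∃ᶠ N : ℕ in atTop,
    f N ≤ 2 ^ (Real.logb 2 N) ^ ε) → ∀ h B n₁ : ℕ, 1 ≤ h →
  ∃ n ≥ n₁, ∃ N : ℕ, 2 ^ (2 ^ (B * n) + 1) ≤ N ∧ f N ≤ (2 : ℝ) ^ ((2 ^ (n / h) / 2 - 1 : ℕ))

end Pool.Agent.W912.SE
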