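import Pool.Agent.W912.SE.Low2
import Pool.Agent.W402.SE.Num
import Pool.Agent.W239.SE.ENC
import Pool.Agent.W67.SE.Core
import Pool.Agent.W899.SE.Maj
import Pool.Agent.W298.SE.AMP
import Pool.Agent.W538.SE.Seq
import Pool.Agent.W357.SE.Block
import Pool.Agent.W797.SE.Numf
import Pool.Agent.W486.SE.Far

/-!
# The lower bound
-/

set_option autoImplicit false

namespace Pool.Agent.W912.SE

open Pool.Agent.NPC Pool.Agent.H620R2.Gauge Pool.Agent.W900.CH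
open MeasureTheory Filter
open Pool.Agent.H628R3.RO (randomOracle)

theorem low_all {g : ℕ → ℝ}
    (hg : ∀ ε : ℝ, 0 < ε → ∃ᶠ n : ℕ in atTop, g n ≤ 2 ^ (n : ℝ) ^ ε) :
    ∀ᵐ O ∂randomOracle, ∀ A, Close g O A → ∀ (rnd : Bool) (M : Alg) (ε : ℝ) (C k a b : ℕ),
      ε < 1 / 2 → a < b → ¬ Sep rnd A M ε C k a b :=
  low Pool.Agent.W239.SE.ENC.main (Pool.Agent.W67.SE.core Pool.Agent.W357.SE.block
    Pool.Agent.W538.SE.seq Pool.Agent.W298.SE.t_AMP Pool.Agent.W899.SE.maj)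
    Pool.Agent.W486.SE.far Pool.Agent.W402.SE.num Pool.Agent.W797.SE.numf hg

end Pool.Agent.W912.SE
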