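import Pool.Agent.W912.SE.Defs
import Pool.Agent.W900.CH.PLev
import Pool.Agent.H622R2.Exp.A1
import Pool.Agent.H622R2.Exp.N1

/-!
# The lower bound: assembly
-/

set_option autoImplicit false

namespace Pool.Agent.W912.SE

open Pool.Agent.NPC Pool.Agent.H620R2.Gauge H568R2 Pool.Agent.H676 Pool.Agent.W900.CH
open Filter Finset
open Pool.Agent.H628R3.RO (randomOracle)

/-- the number of coins -/
def nc (rnd : Bool) (T : ℕ) : ℕ := if rnd then T else 0

/-- the input -/
def inp (rnd : Bool) (r x : List Bool) : List Bool := if rnd then pairBits r x else x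

/-- the number of rounds -/
def bud (C k a b : ℕ) (F : Formula) : ℕ := C * ((enc F).length + 1) ^ k * 2 ^ (a * nv F / b)

/-- the number of accepting coin sequences -/
def acc (rnd : Bool) (A : Oracle) (M : Alg) (T : ℕ) (F : Formula) : ℕ :=
  ((univ : Finset (Fin (nc rnd T) → Bool)).filter (fun r =>
    M.run A (inp rnd (List.ofFn r) (enc F)) T [] = some [true])).card

/-- every assignment satisfies at most the fraction `1 - ε` of the clauses -/
def Far (A : Oracle) (ε : ℝ) (F : Formula) : Prop := ∀ y, (sat A F y : ℝ) ≤ (1 - ε) * F.length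

/-- the algorithm separates satisfiable formulas from far ones -/
def Sep (rnd : Bool) (A : Oracle) (M : Alg) (ε : ℝ) (C k a b : ℕ) : Prop :=
  ∀ F : Formula, F ≠ [] → (∀ c ∈ F, c.length ≤ 1) →
    ((∃ y, sat A F y = F.length) →
      2 * 2 ^ nc rnd (bud C k a b F) ≤ 3 * acc rnd A M (bud C k a b F) F) ∧
    (Far A ε F → 3 * acc rnd A M (bud C k a b F) F ≤ 2 ^ nc rnd (bud C k a b F))

theorem Sep.mono {rnd : Bool} {A : Oracle} {M : Alg} {ε ε' : ℝ} {C k a b : ℕ} (h : ε ≤ ε')
    (hS : Sep rnd A M ε C k a b) : Sep rnd A M ε' C k a b := by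
  intro F hF hc
  refine ⟨(hS F hF hc).1, fun h1 => (hS F hF hc).2 fun y => (h1 y).trans ?_⟩
  have : (0 : ℝ) ≤ F.length := by positivity
  nlinarith

/-! ## the codes of the test formulas have the same length -/

theorem encL_length {α : Type} (e : α → List Bool) (l : List α) :
    (encL e l).length = (l.map (fun a => (e a).length + 1)).sum + 1 := by
  unfold encL
  rw [List.length_append, List.length_flatMap]
  simp

theorem encL_append_length {α : Type} (e : α → List Bool) (l l' : List α) :
    (encL e (l ++ l')).length + 1 = (encL e l).length + (encL e l').length := by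
  simp only [encL_length, List.map_append, List.sum_append]
  ring

theorem encL_cst_length (z : List Bool) :
    (encL Arg.enc (z.map Arg.cst)).length = 3 * z.length + 1 := by
  rw [encL_length, List.map_map]
  have : (fun a => (Arg.enc a).length + 1) ∘ Arg.cst = fun _ => 3 := by
    funext b
    rfl
  rw [this]
  simp [mul_comm]

theorem enc_phi_congr (n m : ℕ) {z z' : List Bool} (h : z.length = z'.length) :
    (enc (phi n m z)).length = (enc (phi n m z')).length := by
  unfold enc phi
  rw [encL_length, encL_length, List.map_map, List.map_map]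
  congr 2
  apply List.map_congr_left
  intro i _
  simp only [Function.comp_apply]
  congr 1
  rw [encL_length, encL_length]
  simp only [List.map_cons, List.map_nil, List.sum_cons, List.sum_nil, Lit.enc, List.length_cons]
  have h1 := encL_append_length Arg.enc (List.replicate i (Arg.cst true) ++ [Arg.cst false])
    (z.map Arg.cst ++ (List.range n).map Arg.var)
  have h2 := encL_append_length Arg.enc (List.replicate i (Arg.cst true) ++ [Arg.cst false])
    (z'.map Arg.cst ++ (List.range n).map Arg.var)
  have h3 := encL_append_length Arg.enc (z.map Arg.cst) ((List.range n).map Arg.var)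
  have h4 := encL_append_length Arg.enc (z'.map Arg.cst) ((List.range n).map Arg.var)
  rw [encL_cst_length] at h3 h4
  rw [List.append_assoc, List.singleton_append] at h1 h2
  omega

/-! ## windows -/

theorem cw_inj {i i' : ℕ} {z z' y y' : List Bool} (h : cw i z y = cw i' z' y') (hz : z.length = z'.length) : i = i' ∧ z = z' ∧ y = y' := by
  unfold cw at h
  have h1 : ∀ (a b : ℕ) (l l' : List Bool), List.replicate a true ++ false :: l =
      List.replicate b true ++ false :: l' → a = b ∧ l = l' := by
    intro a
    induction a with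
    | zero =>
      intro b l l' h
      cases b with
      | zero => simpa using h
      | succ b => simp [List.replicate_succ] at h
    | succ a ih =>
      intro b l l' h
      cases b with
      | zero => simp [List.replicate_succ] at h
      | succ b =>
        simp only [List.replicate_succ, List.cons_append, List.cons.injEq, true_and] at h
        obtain ⟨h1, h2⟩ := ih b l l' h
        exact ⟨by omega, h2⟩
  obtain ⟨h2, h3⟩ := h1 _ _ _ _ h
  obtain ⟨h4, h5⟩ := List.append_inj h3 hz
  exact ⟨h2, h4, h5⟩

theorem length_cw (i : ℕ) (z y : List Bool) : (cw i z y).length = i + 1 + z.length + y.length := by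
  unfold cw
  simp only [List.length_append, List.length_replicate, List.length_cons]
  ring

/-- the positions of the strings asked by the clauses -/
def win (N m : ℕ) (z y : List Bool) : Finset (Fin N) :=
  univ.filter (fun x => ∃ i < m, str x.val = cw i z y)

theorem mem_win {N m : ℕ} {z y : List Bool} {x : Fin N} :
    x ∈ win N m z y ↔ ∃ i < m, str x.val = cw i z y := by
  unfold win
  rw [Finset.mem_filter]
  exact ⟨fun h => h.2, fun h => ⟨mem_univ _, h⟩⟩

theorem card_win (N m : ℕ) (z y : List Bool) (hN : ∀ i < m, idx (cw i z y) < N) (v : Fin N → Bool) :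
    ((win N m z y).filter (fun x => v x = true)).card =
      ((Finset.range m).filter (fun i => orc N v (cw i z y) = true)).card := by
  symm
  refine Finset.card_bij (fun i hi => ⟨idx (cw i z y), hN i
    (Finset.mem_range.1 (Finset.mem_filter.1 hi).1)⟩) ?_ ?_ ?_
  · intro i hi
    obtain ⟨h1, h2⟩ := Finset.mem_filter.1 hi
    rw [Finset.mem_range] at h1
    rw [Finset.mem_filter, mem_win]
    refine ⟨⟨i, h1, str_idx _⟩, ?_⟩
    unfold orc at h2
    rw [dif_pos (hN i h1)] at h2
    exact h2
  · intro i _ i' _ h
    have h1 : idx (cw i z y) = idx (cw i' z y) := congrArg Fin.val h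
    have h2 : cw i z y = cw i' z y := by
      rw [← str_idx (cw i z y), h1, str_idx]
    exact (cw_inj h2 rfl).1
  · intro x hx
    obtain ⟨h1, h2⟩ := Finset.mem_filter.1 hx
    obtain ⟨i, hi, h3⟩ := mem_win.1 h1
    have h4 : idx (cw i z y) = x.val := by rw [← h3, idx_str]
    have h5 : (⟨idx (cw i z y), hN i hi⟩ : Fin N) = x := Fin.ext h4
    refine ⟨i, ?_, h5⟩
    rw [Finset.mem_filter, Finset.mem_range]
    refine ⟨hi, ?_⟩
    unfold orc
    rw [dif_pos (hN i hi), h5]
    exact h2

theorem card_win' (N m : ℕ) (z y : List Bool) (hN : ∀ i < m, idx (cw i z y) < N) :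
    (win N m z y).card = m := by
  have h1 := card_win N m z y hN (fun _ => true)
  rw [Finset.filter_true_of_mem (fun x _ => rfl)] at h1
  rw [h1, Finset.filter_true_of_mem]
  · rw [Finset.card_range]
  · intro i hi
    unfold orc
    rw [dif_pos (hN i (Finset.mem_range.1 hi))]

theorem disj_win {N m : ℕ} {z z' y y' : List Bool} (hz : z.length = z'.length)
    (h : ¬ (z = z' ∧ y = y')) : Disjoint (win N m z y) (win N m z' y') := by
  rw [Finset.disjoint_left]
  intro x h1 h2
  obtain ⟨i, _, h3⟩ := mem_win.1 h1
  obtain ⟨i', _, h4⟩ := mem_win.1 h2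
  obtain ⟨-, h5, h6⟩ := cw_inj (h3.symm.trans h4) hz
  exact h ⟨h5, h6⟩

theorem exists_asg (n j : ℕ) : ∃ y : ℕ → Bool, (List.range n).map y = bitsOf n j := by
  refine ⟨fun i => (bitsOf n j).getD i false, ?_⟩
  apply List.ext_getElem
  · simp [length_bitsOf]
  · intro i h1 h2
    simp [List.getElem_map, List.getElem_range, h2]

/-- hits and satisfiability -/
theorem hit_iff (hE : S_ENC) {N n m D k : ℕ} (hN : ∀ i < m, ∀ j, idx (cw i (bitsOf D k) (bitsOf n j)) < N)
    (v : Fin N → Bool) :
    HitF (fun j : Fin (2 ^ n) => win N m (bitsOf D k) (bitsOf n j.val)) v ↔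
      ∃ y, sat (orc N v) (phi n m (bitsOf D k)) y = (phi n m (bitsOf D k)).length := by
  obtain ⟨h1, -, -, -, h5⟩ := hE n m (bitsOf D k)
  rw [h1]
  have key : ∀ j : ℕ, (∀ i ∈ win N m (bitsOf D k) (bitsOf n j), v i = true) ↔
      ((Finset.range m).filter (fun i => orc N v (cw i (bitsOf D k) (bitsOf n j)) = true)).card =
        m := by
    intro j
    rw [← card_win N m _ _ (fun i hi => hN i hi j) v]
    have h6 := card_win' N m (bitsOf D k) (bitsOf n j) (fun i hi => hN i hi j)
    constructor
    · intro h
      rw [Finset.filter_true_of_mem h, h6]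
    · intro h i hi
      have h7 : (win N m (bitsOf D k) (bitsOf n j)).filter (fun x => v x = true) =
          win N m (bitsOf D k) (bitsOf n j) :=
        Finset.eq_of_subset_of_card_le (Finset.filter_subset _ _) (by rw [h, h6])
      rw [← h7] at hi
      exact (Finset.mem_filter.1 hi).2
  constructor
  · rintro ⟨j, hj⟩
    obtain ⟨y, hy⟩ := exists_asg n j.val
    exact ⟨y, by rw [h5, hy]; exact (key j.val).1 hj⟩
  · rintro ⟨y, hy⟩
    obtain ⟨j, hj, hj2⟩ := exists_bitsOf ((List.range n).map y)
    rw [List.length_map, List.length_range] at hj hj2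
    refine ⟨⟨j, hj⟩, ?_⟩
    rw [h5, ← hj2] at hy
    exact (key j).2 hy

/-- far blocks and far formulas -/
theorem far_iff (hE : S_ENC) {N n m D k : ℕ} (hN : ∀ i < m, ∀ j, idx (cw i (bitsOf D k) (bitsOf n j)) < N)
    (v : Fin N → Bool) (ε : ℝ) :
    FarF (fun j : Fin (2 ^ n) => win N m (bitsOf D k) (bitsOf n j.val)) ((1 - ε) * m) v ↔
      Far (orc N v) ε (phi n m (bitsOf D k)) := by
  obtain ⟨h1, -, -, -, h5⟩ := hE n m (bitsOf D k)
  unfold FarF Far
  rw [h1]
  constructor
  · intro h y
    obtain ⟨j, hj, hj2⟩ := exists_bitsOf ((List.range n).map y)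
    rw [List.length_map, List.length_range] at hj hj2
    have h6 := h ⟨j, hj⟩
    dsimp only at h6
    rw [card_win N m _ _ (fun i hi => hN i hi j) v] at h6
    rw [h5, ← hj2]
    exact h6
  · intro h j
    obtain ⟨y, hy⟩ := exists_asg n j.val
    have h6 := h y
    rw [h5, hy] at h6
    rw [card_win N m _ _ (fun i hi => hN i hi j.val) v]
    exact h6

end Pool.Agent.W912.SE
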