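import Pool.Agent.W912.SE.Low

/-!
# The lower bound: null sets
-/

set_option autoImplicit false

namespace Pool.Agent.W912.SE

open Pool.Agent.NPC Pool.Agent.H620R2.Gauge H568R2 Pool.Agent.H676 Pool.Agent.W900.CH
open Filter Finset
open Pool.Agent.H628R3.RO (randomOracle)

theorem length_inp (rnd : Bool) (r x : List Bool) : (inp rnd r x).length ≤ 2 * r.length + 1 + x.length := by
  unfold inp
  split_ifs
  · rw [Pool.Agent.H620R2.Gauge.length_pairBits]
  · omega

theorem nc_le (rnd : Bool) (T : ℕ) : nc rnd T ≤ T := by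
  unfold nc
  split_ifs <;> omega

open Classical in
/-- the event -/
def Ev (rnd : Bool) (M : Alg) (ε : ℝ) (n m D T N : ℕ) (v : Fin N → Bool) : Prop :=
  ∀ k : Fin (2 ^ D), Good (fun j : Fin (2 ^ n) => win N m (bitsOf D k.val) (bitsOf n j.val))
    ((1 - ε) * m) (fun r : Fin (nc rnd T) → Bool =>
      decide (M.run (orc N v) (inp rnd (List.ofFn r) (enc (phi n m (bitsOf D k.val)))) T [] =
        some [true])) v

/-- the event has a small probability -/
theorem ev_bound (hC : S_CORE) {rnd : Bool} {M : Alg} {ε : ℝ} {n m D T N K : ℕ}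
    (hN : ∀ i < m, ∀ k < 2 ^ D, ∀ j, idx (cw i (bitsOf D k) (bitsOf n j)) < N)
    (hF : ∀ W : Fin (2 ^ n) → Finset (Fin N), (∀ j, (W j).card = m) → (3 : ℝ) / 4 ≤ Ex unif
      (fun a : Fin N → Bool => haveI := Classical.propDecidable; if FarF W ((1 - ε) * m) a then (1 : ℝ) else 0))
    (h1 : 48 * (m + 4) * T ≤ 2 ^ n) (h2 : K * (2 ^ n + m * 2 ^ n) * 2 ^ (m + 3) ≤ 2 ^ D) :
    Ex unif (fun v : Fin N → Bool => haveI := Classical.propDecidable; if Ev rnd M ε n m D T N v then (1 : ℝ) else 0) ≤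
      (1 - (1 / 2) ^ (m + 4)) ^ K := by
  classical
  have h := hC (Fin N) (Fin (2 ^ D)) (Fin (2 ^ n)) (Fin (nc rnd T) → Bool) m T K ((1 - ε) * m)
    (fun k j => win N m (bitsOf D k.val) (bitsOf n j.val))
    (fun r k v => decide (M.run (orc N v) (inp rnd (List.ofFn r) (enc (phi n m (bitsOf D k.val))))
      T [] = some [true]))
    (fun k j => card_win' N m _ _ (fun i hi => hN i hi k.val k.2 j.val))
    (fun k j k' j' hne => disj_win (by rw [length_bitsOf, length_bitsOf]) (by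
      rintro ⟨h3, h4⟩
      apply hne
      rw [Prod.mk.injEq]
      exact ⟨Fin.ext (bitsOf_inj k.2 k'.2 h3), Fin.ext (bitsOf_inj j.2 j'.2 h4)⟩))
    (fun k => ?_) (fun r k => dtr_run M N _ T []) (by simp) (by simpa using h1) ?_
  · refine le_trans (le_of_eq ?_) h
    congr 1
    funext v
    by_cases hv : Ev rnd M ε n m D T N v
    · rw [if_pos hv, if_pos]
      exact hv
    · rw [if_neg hv, if_neg]
      exact hv
  · have h3 := hF (fun j => win N m (bitsOf D k.val) (bitsOf n j.val))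
      (fun j => card_win' N m _ _ (fun i hi => hN i hi k.val k.2 j.val))
    refine h3.trans (le_of_eq ?_)
    congr 1
  · rw [Fintype.card_fin, Fintype.card_fin]
    refine le_trans ?_ h2
    refine Nat.mul_le_mul_right _ (Nat.mul_le_mul_left _ ?_)
    have : 12 * (m + 4) * T ≤ 48 * (m + 4) * T := by
      apply Nat.mul_le_mul_right
      omega
    omega

/-- separation implies the event -/
theorem ev_of_sep (hE : S_ENC) {rnd : Bool} {M : Alg} {ε : ℝ} {C k₀ a b n m D N L T : ℕ} {A : Oracle}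
    {P : Polynomial ℕ} (hP : ∀ (A : Oracle) (x : List Bool) (n : ℕ),
      ∃ Q : Finset (List Bool), Q.card ≤ n ∧ (∀ q ∈ Q, q.length ≤ P.eval (x.length + n)) ∧
      ∀ A' : Oracle, (∀ q ∈ Q, A' q = A q) → M.run A' x n [] = M.run A x n [])
    (hm : 1 ≤ m) (hL : L = (enc (phi n m (bitsOf D 0))).length)
    (hT : T = C * (L + 1) ^ k₀ * 2 ^ (a * n / b)) {B : ℕ}
    (hB1 : m + D + n + 1 ≤ B) (hB2 : P.eval (3 * T + L + 1) ≤ B) (hN : 2 ^ (B + 1) ≤ N)
    (hS : Sep rnd A M ε C k₀ a b) : Ev rnd M ε n m D T N (pre N A) := by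
  classical
  have hshort : ∀ y : List Bool, y.length ≤ B → idx y < N := by
    intro y hy
    have h1 := idx_lt y
    have h2 : 2 ^ (y.length + 1) ≤ 2 ^ (B + 1) := Nat.pow_le_pow_right (by norm_num) (by omega)
    omega
  have hcw : ∀ i < m, ∀ k j, idx (cw i (bitsOf D k) (bitsOf n j)) < N := by
    intro i hi k j
    apply hshort
    rw [length_cw, length_bitsOf, length_bitsOf]
    omega
  intro k
  obtain ⟨e1, e2, e3, e4, e5⟩ := hE n m (bitsOf D k.val)
  have hne : phi n m (bitsOf D k.val) ≠ [] := by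
    intro h
    rw [h] at e1
    simp at e1
    omega
  have hlen : (enc (phi n m (bitsOf D k.val))).length = L := by
    rw [hL]
    exact enc_phi_congr n m (by rw [length_bitsOf, length_bitsOf])
  have hbud : bud C k₀ a b (phi n m (bitsOf D k.val)) = T := by
    unfold bud
    rw [hlen, e3 hm, hT]
  have h1 := hS (phi n m (bitsOf D k.val)) hne e2
  rw [hbud] at h1
  -- the oracle is only needed on the first strings
  have hsat : ∀ y, sat (orc N (pre N A)) (phi n m (bitsOf D k.val)) y =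
      sat A (phi n m (bitsOf D k.val)) y := by
    intro y
    rw [e5, e5]
    congr 1
    apply Finset.filter_congr
    intro i hi
    obtain ⟨j, _, hj⟩ := exists_bitsOf ((List.range n).map y)
    rw [List.length_map, List.length_range] at hj
    rw [← hj, orc_pre (hcw i (Finset.mem_range.1 hi) _ _)]
  have hrun : ∀ r : Fin (nc rnd T) → Bool,
      M.run (orc N (pre N A)) (inp rnd (List.ofFn r) (enc (phi n m (bitsOf D k.val)))) T [] =
      M.run A (inp rnd (List.ofFn r) (enc (phi n m (bitsOf D k.val)))) T [] := by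
    intro r
    obtain ⟨Q, _, h2, h3⟩ := hP A (inp rnd (List.ofFn r) (enc (phi n m (bitsOf D k.val)))) T
    apply h3
    intro q hq
    apply orc_pre
    apply hshort
    refine (h2 q hq).trans (le_trans ?_ hB2)
    apply eval_mono
    have h4 := length_inp rnd (List.ofFn r) (enc (phi n m (bitsOf D k.val)))
    rw [List.length_ofFn, hlen] at h4
    have h5 := nc_le rnd T
    omega
  have hcard : (univ.filter (fun r : Fin (nc rnd T) → Bool =>
      decide (M.run (orc N (pre N A)) (inp rnd (List.ofFn r) (enc (phi n m (bitsOf D k.val)))) T [] =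
        some [true]) = true)).card = acc rnd A M T (phi n m (bitsOf D k.val)) := by
    unfold acc
    congr 1
    ext r
    simp only [Finset.mem_filter, decide_eq_true_eq, hrun r]
  have hcardR : Fintype.card (Fin (nc rnd T) → Bool) = 2 ^ nc rnd T := by simp
  unfold Good
  constructor
  · intro h
    have h2 := (hit_iff hE (fun i hi j => hcw i hi k.val j) (pre N A)).1 h
    obtain ⟨y, hy⟩ := h2
    rw [hsat] at hy
    have h3 := h1.1 ⟨y, hy⟩
    rw [hcardR]
    refine h3.trans (le_of_eq ?_)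
    rw [← hcard]
  · intro h
    have h2 := (far_iff hE (fun i hi j => hcw i hi k.val j) (pre N A) ε).1 h
    have h3 := h1.2 (fun y => by rw [← hsat]; exact h2 y)
    rw [hcardR]
    refine le_trans (le_of_eq ?_) h3
    rw [← hcard]

/-- the exceptional sets -/
def XX (θ : Alg × Bool × ℕ × ℕ × ℕ × ℕ × ℕ) : Set Oracle :=
  {A | 0 < θ.2.2.2.2.2.2 ∧ θ.2.2.2.2.2.1 < θ.2.2.2.2.2.2 ∧
    Sep θ.2.1 A θ.1 (1 / 2 - 1 / (θ.2.2.1 + 2)) θ.2.2.2.1 θ.2.2.2.2.1 θ.2.2.2.2.2.1 θ.2.2.2.2.2.2}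

theorem null_XX (hE : S_ENC) (hC : S_CORE) (hF : S_FAR) (hN : S_NUM) (hNF : S_NUMF) {f : ℕ → ℝ}
    (hf : ∀ ε : ℝ, 0 < ε → ∃ᶠ N : ℕ in atTop, f N ≤ 2 ^ (Real.logb 2 N) ^ ε)
    (θ : Alg × Bool × ℕ × ℕ × ℕ × ℕ × ℕ) : Null f (XX θ) := by
  classical
  obtain ⟨M, rnd, j, C, k₀, a, b⟩ := θ
  by_cases hab : 0 < b ∧ a < b
  swap
  · intro δ hδ
    refine ⟨∅, ?_, by simp⟩
    rintro A ⟨h1, h2, -⟩
    exact absurd ⟨h1, h2⟩ hab
  obtain ⟨hb, hab⟩ := hab
  intro δ hδ
  set ε : ℝ := 1 / 2 - 1 / (j + 2) with hε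
  have hε2 : ε < 1 / 2 := by
    rw [hε]
    have : (0 : ℝ) < 1 / (j + 2) := by positivity
    linarith
  obtain ⟨m₀, hm₀, hfar⟩ := hF ε hε2
  obtain ⟨P, hP⟩ := Pool.Agent.H622R2.Exp.run_local M
  obtain ⟨h, B, n₀, hh, hnum⟩ := hN P C k₀ a b m₀ hb hab
  obtain ⟨k₁, hk₁⟩ := exists_pow_lt_of_lt_one hδ (by norm_num : (1 / 2 : ℝ) < 1)
  obtain ⟨n, hn, N, hN1, hfN⟩ := hNF f hf h B (n₀ + (h * (k₁ + 2))) hh
  obtain ⟨D, hD⟩ : ∃ D, D = 2 ^ (n / h) := ⟨_, rfl⟩
  obtain ⟨m, hm⟩ : ∃ m, m = m₀ * (n + 1) := ⟨_, rfl⟩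
  obtain ⟨b1, b2, K, b3, b4⟩ := hnum n (by omega) D m hD hm
  obtain ⟨L, hL⟩ : ∃ L, L = (enc (phi n m (bitsOf D 0))).length := ⟨_, rfl⟩
  obtain ⟨T, hT⟩ : ∃ T, T = C * (L + 1) ^ k₀ * 2 ^ (a * n / b) := ⟨_, rfl⟩
  have hLb : L ≤ Lb n m D := by
    have := (hE n m (bitsOf D 0)).2.2.2.1
    rw [length_bitsOf] at this
    rw [hL]
    exact this
  obtain ⟨b5, b6⟩ := b2 L T hLb hT
  have hm1 : 1 ≤ m := by
    rw [hm]
    exact Nat.mul_pos hm₀ (by omega)
  have hcw : ∀ i < m, ∀ k < 2 ^ D, ∀ j, idx (cw i (bitsOf D k) (bitsOf n j)) < N := by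
    intro i hi k _ j
    have h1 := idx_lt (cw i (bitsOf D k) (bitsOf n j))
    rw [length_cw, length_bitsOf, length_bitsOf] at h1
    have h2 : 2 ^ (i + 1 + D + n + 1) ≤ 2 ^ (2 ^ (B * n) + 1) :=
      Nat.pow_le_pow_right (by norm_num) (by omega)
    omega
  refine cover_of_event (Ev rnd M ε n m D T N) (XX (M, rnd, j, C, k₀, a, b)) ?_ f δ ?_
  · rintro A ⟨-, -, hA⟩
    exact ev_of_sep hE hP hm1 hL hT b1 b6 hN1 hA
  · have h1 := ev_bound hC (rnd := rnd) (M := M) (ε := ε) (T := T) hcw (fun W hW => by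
      have h2 := hfar n m hm (Fin N) (Fin (2 ^ n)) W (by simp) hW
      refine h2.trans (le_of_eq ?_)
      congr 1) b5 b3
    have h2 : k₁ + 2 ≤ n / h := by
      rw [Nat.le_div_iff_mul_le hh, mul_comm]
      omega
    have h3 : k₁ + 2 < D := by
      rw [hD]
      exact lt_of_le_of_lt h2 Nat.lt_two_pow_self
    have h4 : 4 ≤ D := by
      rw [hD]
      calc 4 = 2 ^ 2 := by norm_num
        _ ≤ 2 ^ (n / h) := Nat.pow_le_pow_right (by norm_num) (by omega)
    rw [← hD] at hfN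
    obtain ⟨E, hEE⟩ : ∃ E, E = D / 2 - 1 := ⟨_, rfl⟩
    have h5 : D / 2 = E + 1 := by omega
    rw [h5] at b4
    rw [← hEE] at hfN
    have h6 : (2 : ℝ) ^ f N ≤ 2 ^ (2 ^ E : ℕ) := by
      rw [← Real.rpow_natCast]
      apply Real.rpow_le_rpow_of_exponent_le (by norm_num)
      push_cast
      exact hfN
    have h7 : k₁ ≤ 2 ^ E := by
      have h8 : E < 2 ^ E := Nat.lt_two_pow_self
      have h9 : D = 2 ^ (n / h) := hD
      have h10 : k₁ + 2 ≤ 2 ^ (n / h - 1) := by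
        have h11 : n / h = (n / h - 1) + 1 := by omega
        rcases Nat.lt_or_ge k₁ 1 with h12 | h12
        · have : k₁ = 0 := by omega
          subst this
          calc 0 + 2 = 2 ^ 1 := by norm_num
            _ ≤ 2 ^ (n / h - 1) := Nat.pow_le_pow_right (by norm_num) (by omega)
        · have h13 : k₁ + 1 ≤ n / h - 1 := by omega
          have h14 : n / h - 1 < 2 ^ (n / h - 1) := Nat.lt_two_pow_self
          omega
      have h11 : D = 2 ^ (n / h - 1) * 2 := by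
        rw [hD, ← pow_succ]
        congr 1
        omega
      omega
    have h8 : Ex unif (fun v : Fin N → Bool => if Ev rnd M ε n m D T N v then (1 : ℝ) else 0) ≤
        (1 / 2) ^ (2 ^ (E + 1)) := by
      refine le_trans (le_of_eq ?_) (h1.trans b4)
      congr 1
    calc Ex unif (fun v : Fin N → Bool => if Ev rnd M ε n m D T N v then (1 : ℝ) else 0) * 2 ^ f N
        ≤ (1 / 2) ^ (2 ^ (E + 1)) * 2 ^ (2 ^ E : ℕ) := by
          refine mul_le_mul h8 h6 (by positivity) (by positivity)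
      _ = (1 / 2) ^ (2 ^ E) := by
          have e1 : 2 ^ (E + 1) = 2 ^ E + 2 ^ E := by rw [pow_succ]; ring
          rw [e1, pow_add, mul_assoc, ← mul_pow]
          norm_num
      _ ≤ (1 / 2) ^ k₁ := pow_le_pow_of_le_one (by norm_num) (by norm_num) h7
      _ ≤ δ := hk₁.le

/-- the lower bound -/
theorem low (hE : S_ENC) (hC : S_CORE) (hF : S_FAR) (hN : S_NUM) (hNF : S_NUMF) {g : ℕ → ℝ}
    (hg : ∀ ε : ℝ, 0 < ε → ∃ᶠ n : ℕ in atTop, g n ≤ 2 ^ (n : ℝ) ^ ε) :
    ∀ᵐ O ∂randomOracle, ∀ A, Close g O A → ∀ (rnd : Bool) (M : Alg) (ε : ℝ) (C k a b : ℕ),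
      ε < 1 / 2 → a < b → ¬ Sep rnd A M ε C k a b := by
  have hc : Countable (Polynomial ℕ) := Pool.Agent.H622R2.Exp.N1.countable_poly
  have h1 := ae_far_P (S := ⋃ θ, XX θ) (fun f hf => null_iUnion XX fun θ =>
    null_XX hE hC hF hN hNF hf θ) hg
  filter_upwards [h1] with O hO A hA rnd M ε C k a b hε hab hS
  apply hO A hA
  obtain ⟨j, hj⟩ := exists_nat_gt (1 / (1 / 2 - ε))
  refine Set.mem_iUnion.2 ⟨(M, rnd, j, C, k, a, b), lt_of_le_of_lt (Nat.zero_le _) hab, hab, ?_⟩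
  refine hS.mono ?_
  have h2 : 0 < 1 / 2 - ε := by linarith
  have h3 : 1 / ((j : ℝ) + 2) ≤ 1 / 2 - ε := by
    rw [div_le_iff₀ (by positivity)]
    rw [div_lt_iff₀ h2] at hj
    nlinarith
  show ε ≤ 1 / 2 - 1 / ((j : ℝ) + 2)
  linarith

end Pool.Agent.W912.SE
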