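import Pool.Agent.W912.SE.Low2

/-!
# Algorithms for satisfiability separate satisfiable formulas from far ones
-/

set_option autoImplicit false

namespace Pool.Agent.W912.SE

open Pool.Agent.NPC Pool.Agent.H620R2.Gauge Finset

theorem not_sat_of_far {A : Oracle} {ε : ℝ} {F : Formula} (hε : 0 < ε) (hF : F ≠ [])
    (h : Far A ε F) : ¬ ∃ y, sat A F y = F.length := by
  rintro ⟨y, hy⟩
  have h1 := h y
  rw [hy] at h1
  have h2 : 0 < F.length := List.length_pos_iff.2 hF
  have h3 : (0 : ℝ) < F.length := by exact_mod_cast h2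
  nlinarith

/-- deterministic algorithms -/
theorem sep_det {A : Oracle} {M : Alg} {C k a b : ℕ} {ε : ℝ} 
    (h1 : ∀ F : Formula, (∀ c ∈ F, c.length ≤ 1) → (∃ y, sat A F y = F.length) →
      M.run A (enc F) (C * ((enc F).length + 1) ^ k * 2 ^ (a * nv F / b)) [] = some [true])
    (h2 : ∀ F : Formula, (∀ c ∈ F, c.length ≤ 1) → F ≠ [] → Far A ε F →
      M.run A (enc F) (C * ((enc F).length + 1) ^ k * 2 ^ (a * nv F / b)) [] ≠ some [true]) :
    Sep false A M ε C k a b := by
  intro F hF hc
  have hacc : acc false A M (bud C k a b F) F =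
      if M.run A (enc F) (bud C k a b F) [] = some [true] then 1 else 0 := by
    unfold acc inp
    simp only [Bool.false_eq_true, if_false]
    split_ifs with h
    · rw [Finset.filter_true_of_mem (fun _ _ => h), Finset.card_univ]
      simp [nc]
    · rw [Finset.filter_false_of_mem (fun _ _ => h), Finset.card_empty]
  have hnc : nc false (bud C k a b F) = 0 := by simp [nc]
  rw [hacc, hnc]
  constructor
  · intro h
    have h3 : M.run A (enc F) (bud C k a b F) [] = some [true] := h1 F hc h
    rw [if_pos h3]
    norm_num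
  · intro h
    have h3 : M.run A (enc F) (bud C k a b F) [] ≠ some [true] := h2 F hc hF h
    rw [if_neg h3]
    norm_num

/-- randomised algorithms -/
theorem sep_rnd {A : Oracle} {M : Alg} {C k a b : ℕ} {ε : ℝ}
    (h1 : ∀ F : Formula, (∀ c ∈ F, c.length ≤ 1) → (∃ y, sat A F y = F.length) → ∀ T : ℕ,
      T = C * ((enc F).length + 1) ^ k * 2 ^ (a * nv F / b) →
      2 * 2 ^ T ≤ 3 * ((univ : Finset (Fin T → Bool)).filter (fun r =>
        M.run A (pairBits (List.ofFn r) (enc F)) T [] = some [true])).card)
    (h2 : ∀ F : Formula, (∀ c ∈ F, c.length ≤ 1) → F ≠ [] → Far A ε F → ∀ T : ℕ,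
      T = C * ((enc F).length + 1) ^ k * 2 ^ (a * nv F / b) →
      3 * ((univ : Finset (Fin T → Bool)).filter (fun r =>
        M.run A (pairBits (List.ofFn r) (enc F)) T [] = some [true])).card ≤ 2 ^ T) :
    Sep true A M ε C k a b := by
  intro F hF hc
  have hnc : nc true (bud C k a b F) = bud C k a b F := by simp [nc]
  have hacc : acc true A M (bud C k a b F) F =
      ((univ : Finset (Fin (bud C k a b F) → Bool)).filter (fun r =>
        M.run A (pairBits (List.ofFn r) (enc F)) (bud C k a b F) [] = some [true])).card := by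
    have key : ∀ t : ℕ, nc true (bud C k a b F) = t →
        ((univ : Finset (Fin (nc true (bud C k a b F)) → Bool)).filter (fun r =>
          M.run A (pairBits (List.ofFn r) (enc F)) (bud C k a b F) [] = some [true])).card =
        ((univ : Finset (Fin t → Bool)).filter (fun r =>
          M.run A (pairBits (List.ofFn r) (enc F)) (bud C k a b F) [] = some [true])).card := by
      rintro t rfl
      rfl
    exact key _ hnc
  rw [hacc, hnc]
  exact ⟨fun h => h1 F hc h _ rfl, fun h => h2 F hc hF h _ rfl⟩

end Pool.Agent.W912.SE
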